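import Pool.Agent.H30.UF

set_option autoImplicit false

namespace Pool.Agent.Results.MP_9e6edb_gt.NotLocCompact

open Set Pool.Agent.H30.UF

/-- There is a basically disconnected space with a cocompact pretty base in which some point has
no compact neighbourhood. -/
theorem result :
    ∃ (X : Type) (_ : TopologicalSpace X), T2Space X ∧
      (∀ s : Set (Set X), s.Countable → (∀ U ∈ s, IsClopen U) → IsClopen (closure (⋃₀ s))) ∧
      (∃ 𝓑 : Set (Set X),
        TopologicalSpace.IsTopologicalBasis 𝓑 ∧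
        (∀ B ∈ 𝓑, IsClopen B) ∧
        (∀ C D : Set (Set X), C ⊆ 𝓑 → C.Countable → D ⊆ 𝓑 →
          (∀ U ∈ C, ∀ V ∈ D, Disjoint U V) →
          ∃ W ∈ 𝓑, (∀ U ∈ C, U ⊆ W) ∧ ∀ V ∈ D, Disjoint W V) ∧
        @CompactSpace X (TopologicalSpace.generateFrom ((fun B : Set X => (closure B)ᶜ) '' 𝓑))) ∧
      ∃ x : X, ∀ K ∈ nhds x, ¬ IsCompact K := by
  refine ⟨X, inferInstance, inferInstance, fun s _ hs => ?_,
    ⟨hat '' L, basis, ?_, pretty, cocompact⟩, ω, fun K hK h => ?_⟩
  · rw [closure_open (isOpen_sUnion fun U hU => (hs U hU).2)]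
    exact hat_clopen _
  · rintro _ ⟨B, -, rfl⟩
    exact hat_clopen B
  · have h1 := mem_closure_diff hK
    rw [(kclosed h).closure_eq] at h1
    exact h1.2 rfl

end Pool.Agent.Results.MP_9e6edb_gt.NotLocCompact
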